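import Pool.Agent.W973.IP.FDefs

set_option autoImplicit false

namespace Pool.Agent.W991.IP

open Pool.Agent.W973.IP Pool.Agent.NPC Pool.Agent.NPC.ER Pool.Agent.NPC.H612

theorem nm_mod {ty : ℕ} (h : ty < 16) (i j : ℕ) : nm ty i j % 16 = ty := by
  unfold nm
  omega

theorem nm_div {ty : ℕ} (h : ty < 16) (i j : ℕ) : nm ty i j / 16 = Nat.pair i j := by
  unfold nm
  omega

/-- extension by zero -/
noncomputable def e1 {n : ℕ} (u : Fin n → ℝ) (l : ℕ) : ℝ := if h : l < n then u ⟨l, h⟩ else 0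

/-- extension by zero -/
noncomputable def e2 {r n : ℕ} (w : Fin r → Fin n → ℝ) (i j : ℕ) : ℝ :=
  if h : i < r then e1 (w ⟨i, h⟩) j else 0

/-- the assignment -/
noncomputable def asgn (n r : ℕ) (c e v τ : ℝ) (u : Fin n → ℝ) (w : Fin (r + 1) → Fin n → ℝ)
    (lam : Fin (r + 1) → ℝ) (m : ℕ) : ℝ :=
  if m % 16 = 0 then c else
  if m % 16 = 1 then e else
  if m % 16 = 2 then v else
  if m % 16 = 3 then e1 u (Nat.unpair (m / 16)).1 else
  if m % 16 = 4 then e2 w (Nat.unpair (m / 16)).1 (Nat.unpair (m / 16)).2 else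
  if m % 16 = 5 then e1 lam (Nat.unpair (m / 16)).1 else
  if m % 16 = 6 then X (fun j : Fin n => e2 w (Nat.unpair (m / 16)).1 j) ^
    2 ^ (Nat.unpair (m / 16)).2 else
  if m % 16 = 7 then 2 ^ (Nat.unpair (m / 16)).2 *
    X (fun j : Fin n => e2 w (Nat.unpair (m / 16)).1 j) ^ (2 ^ (Nat.unpair (m / 16)).2 - 1) else
  if m % 16 = 8 then rt (Nat.unpair (m / 16)).1 else
  τ ^ 2 ^ (Nat.unpair (m / 16)).1

theorem asg : S_ASG := by
  intro n r c e v τ u w lam
  have h4 : ∀ i j, asgn n r c e v τ u w lam (nm 4 i j) = e2 w i j := by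
    intro i j
    unfold asgn
    rw [nm_mod (by norm_num), nm_div (by norm_num), Nat.unpair_pair]
    simp
  refine ⟨asgn n r c e v τ u w lam, ?_, ?_, ?_, ?_, ?_, ?_, ?_, ?_, ?_⟩
  · unfold asgn
    rw [nm_mod (by norm_num)]
    simp
  · unfold asgn
    rw [nm_mod (by norm_num)]
    simp
  · unfold asgn
    rw [nm_mod (by norm_num)]
    simp
  · intro l
    unfold asgn
    rw [nm_mod (by norm_num), nm_div (by norm_num), Nat.unpair_pair]
    simp [e1]
  · intro i j
    rw [h4]
    unfold e2 e1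
    rw [dif_pos i.2, dif_pos j.2]
  · intro i
    have h : e1 lam i = lam i := by
      unfold e1
      rw [dif_pos i.2]
    unfold asgn
    rw [nm_mod (by norm_num), nm_div (by norm_num), Nat.unpair_pair, ← h]
    simp
  · intro t
    unfold asgn
    rw [nm_mod (by norm_num), nm_div (by norm_num), Nat.unpair_pair]
    simp
  · intro t _
    unfold asgn
    rw [nm_mod (by norm_num), nm_div (by norm_num), Nat.unpair_pair]
    simp
  · intro i _ t _
    simp only [h4]
    constructor
    · unfold asgn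
      rw [nm_mod (by norm_num), nm_div (by norm_num), Nat.unpair_pair]
      simp
    · unfold asgn
      rw [nm_mod (by norm_num), nm_div (by norm_num), Nat.unpair_pair]
      simp

end Pool.Agent.W991.IP
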